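import Pool.Agent.Lib.MP_4a16d5_al.Classify

/-! Classification of the finite rings that embed into a matrix ring over a commutative ring. -/

universe u v

theorem Pool.Agent.Results.MP_4a16d5_al.Classification.result :
    ∀ (R : Type u) [NonUnitalRing R] [Finite R], List.TFAE
      [∃ (n : ℕ) (K : Type v) (_ : CommRing K) (f : R →ₙ+* Matrix (Fin n) (Fin n) K),
          1 ≤ n ∧ Function.Injective f,
        ∃ (n : ℕ) (K : Type v) (_ : CommRing K) (f : R →ₙ+* Matrix (Fin n) (Fin n) K),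
          1 ≤ n ∧ Finite K ∧ (1 : K) ≠ 0 ∧ Function.Injective f ∧
          ∀ o : R, o ≠ 0 → (∀ r, o * r = r ∧ r * o = r) → f o = 1,
        ∀ x : R, x ≠ 0 → ∃ I : TwoSidedIdeal R, x ∉ I ∧
          ∀ e : R, e * e - e ∈ I → e ∉ I → ∀ m : ℕ, m • e ∈ I → ∀ y : R, m • y ∈ I] := by
  intro R _ _
  tfae_have 1 → 3 := fun ⟨_, _, _, f, _, hf⟩ => Pool.Agent.Lib.MP_4a16d5_al.necessity f hf
  tfae_have 3 → 2 := Pool.Agent.Lib.MP_4a16d5_al.sufficiency
  tfae_have 2 → 1 := fun ⟨n, K, i, f, h1, _, _, hf, _⟩ => ⟨n, K, i, f, h1, hf⟩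
  tfae_finish
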