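import Pool.Agent.FS.FinLen.Coef

/-! Module-finite local algebras with nilpotent radical, residue field finite or not. -/

theorem Pool.Agent.Results.MP_4a16d5_al.FiniteLength.result
    (A : Type) [CommRing A] [IsNoetherianRing A] (π : A) (hπ : π ∈ nonZeroDivisors A)
    (p : ℕ) (hp : 2 ≤ p) (hπp : π ∣ (p : A))
    (k : Type) [Field k] [Algebra A k] (hk : Function.Surjective (algebraMap A k))
    (hker : ∀ a : A, algebraMap A k a = 0 ↔ π ∣ a)
    (L : Type) [Field L] [Algebra k L] [Algebra A L] [IsScalarTower A k L]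
    [Algebra.IsSeparable k L]
    (R : Type) [Ring R] [Algebra A R] [Module.Finite A R] (q : R →ₐ[A] L)
    (hq : Function.Surjective q) (N : ℕ)
    (hJ : ∀ l : List R, l.length = N + 1 → (∀ x ∈ l, q x = 0) → l.prod = 0) :
    ∃ (n : ℕ) (K : Type) (_ : CommRing K) (f : R →+* Matrix (Fin n) (Fin n) K),
      1 ≤ n ∧ Function.Injective f := by
  have : Nontrivial R := q.toRingHom.domain_nontrivial
  obtain ⟨S, _, _, ι, _, b, φ, hφ, hS⟩ := Pool.Agent.FS.FinLen.coeff_ring π hk
    (fun a => (hker a).1) q hq (fun r hr => ⟨N + 1, by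
      simpa using hJ (List.replicate (N + 1) r) (by simp) fun x hx => by
        rw [List.eq_of_mem_replicate hx]; exact hr⟩)
  obtain ⟨K, i, n, f, hf⟩ := Pool.Agent.FS.FinLen.main π
    (fun a ha => (mem_nonZeroDivisors_iff.1 hπ).1 a ha) p hp hπp b hS φ (RingHom.ker q) N hJ
    (by
      rw [RingHom.mem_ker, AlgHom.commutes, IsScalarTower.algebraMap_apply A k L,
        (hker π).2 dvd_rfl, map_zero]) hφ
  refine ⟨n, K, i, f, ?_, hf⟩
  rcases n with _ | n
  · exact absurd (hf (Subsingleton.elim (f 1) (f 0))) one_ne_zero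
  · omega
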